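import Pool.Agent.L0h16.PZ.Stm

/-!
# PZ, module DUH
-/

set_option autoImplicit false

namespace Pool.Agent.L0h16.PZ

open Pool.Agent.Y167 (Sys)
open Pool.Agent.Y167.Sys
open Pool.Agent.L0h18.HZ Pool.Agent.L0h88.HZ

theorem t_DUH : S_DUH := by
  intro hR A _ _ r ρ S Φ h z hz
  have hcc : CCone {b : Fin ρ → ℝ | 0 ≤ bt S Φ b z} := by
    refine ⟨?_, ?_, ?_⟩
    · exact isClosed_le continuous_const ((bt S Φ).flip z).continuous_of_finiteDimensional
    · intro x hx w hw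
      show 0 ≤ bt S Φ (x + w) z
      rw [map_add, LinearMap.add_apply]
      exact add_nonneg hx hw
    · intro t ht x hx
      show 0 ≤ bt S Φ (t • x) z
      rw [map_smul, LinearMap.smul_apply, smul_eq_mul]
      exact mul_nonneg ht hx
  obtain ⟨a₀, ha₀⟩ := (h.range 1).1 S.st_one
  have ha₀p : a₀ ∈ pd S Φ := by
    show S.Pd (Φ a₀)
    rw [ha₀]
    exact Pool.Agent.Y167.Sys.pd_one
  have hN : (0 : ℝ) < (S.N : ℝ) := by exact_mod_cast S.N_pos
  have hsub : psd S Φ ⊆ {b : Fin ρ → ℝ | 0 ≤ bt S Φ b z} := by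
    refine hR A r ρ S Φ h _ hcc a₀ ha₀p fun w hw hww x' hx' => ?_
    have hw' := S.N_st w hw
    have hww' : ((S.N : ℝ) • S.st w) * ((S.N : ℝ) • S.st w) = 0 := by
      rw [smul_mul_smul_comm, ← S.st_mul, hww, map_zero, smul_zero]
    have hst : S.st ((S.N : ℝ) • S.st w) = (S.N : ℝ) • w := by
      rw [map_smul, S.st_st]
    have hsa : S.st (S.st ((S.N : ℝ) • S.st w) * Φ z * ((S.N : ℝ) • S.st w)) =
        S.st ((S.N : ℝ) • S.st w) * Φ z * ((S.N : ℝ) • S.st w) := by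
      rw [S.st_mul, S.st_mul, S.st_st, st_phi h, mul_assoc]
    obtain ⟨z', hz'⟩ := (h.range _).1 hsa
    have h1 := hz _ hw' hww' z' hz'
    have h2 : 0 ≤ S.tr (S.st 1 * Φ z' * 1) := (psd_iff'.1 h1).2 1
    rw [S.st_one, one_mul, mul_one, hz', hst] at h2
    show 0 ≤ bt S Φ x' z
    rw [bt_apply, hx', ha₀, mul_one, mul_assoc, S.tr_comm]
    have h3 : S.tr ((S.N : ℝ) • w * Φ z * (S.N : ℝ) • S.st w) = ((S.N : ℝ) * S.N) * S.tr (w * Φ z * S.st w) := by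
      rw [smul_mul_assoc, smul_mul_smul_comm, map_smul, smul_eq_mul]
    rw [h3] at h2
    exact (mul_nonneg_iff_of_pos_left (mul_pos hN hN)).1 h2
  show S.Psd (Φ z)
  refine psd_iff'.2 ⟨st_phi h z, fun x => ?_⟩
  have h1 : S.Psd (x * S.st x) := psd_mul_st x
  obtain ⟨p, hp⟩ := (h.range _).1 h1.sa
  have hpD : p ∈ {b : Fin ρ → ℝ | 0 ≤ bt S Φ b z} := hsub (by
    change S.Psd (Φ p)
    rw [hp]
    exact h1)
  have h2 : 0 ≤ bt S Φ p z := hpD
  rw [bt_apply, hp] at h2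
  rw [S.tr_comm, ← mul_assoc]
  exact h2

end Pool.Agent.L0h16.PZ
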