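import Pool.Agent.L0h16.PZ.Main
import Pool.Agent.L0h16.LA.Mov

/-!
Divisor form: non-big classes are combinations of translates of finitely many classes, each in one piece.
-/

set_option autoImplicit false
set_option linter.unusedSectionVars false

open FF Pool.Agent.W602.GT Pool.Agent.Y172 Pool.Agent.R887
open Pool.Agent.Y167 (cone mem_cone_self)
open Pool.Agent.N110 Pool.Agent.N110.PA Pool.Agent.N110.NV Pool.Agent.N492.PA Pool.Agent.N110.CC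
open Pool.Agent.N165.KM (IntL interior_add_mem interior_smul_mem)
open Pool.Agent.L0h18.CO Pool.Agent.L0h18.HZ Pool.Agent.L0h16.LA

namespace Pool.Agent.L0h16.PZ

section

variable {K : Type} [Field K] [Algebra ℂ K] {N n ρ : ℕ} {y : Fin (N + 1) → K}
  {c : Place ℂ K → Fin ρ → ℤ} {𝒮 : Subgroup (K ≃ₐ[ℂ] K)} {P C : Set (Fin ρ → ℝ)}

/-- from classes to divisors -/
theorem to_div (hy : NormalModel y) (hc : PicardBasis y c) (h𝒮 : ∀ φ ∈ 𝒮, PseudoAut φ y)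
    {F : Finset (Fin ρ → ℝ)} (hF : ∀ s ∈ F, s ∈ IntL ρ) {A : (Fin ρ → ℚ) → Prop}
    (hall : ∀ q : Fin ρ → ℚ, A q → ∃ T ∈ pulls y c 𝒮, ∃ t : (Fin ρ → ℝ) → ℚ, (∀ s, 0 ≤ t s) ∧
      toR q = ∑ s ∈ F, (t s : ℝ) • T s) :
    ∃ ℱ : Finset (Place ℂ K → ℤ), (∀ E ∈ ℱ, {P | IsPrimeDivisor y P ∧ E P ≠ 0}.Finite ∧
        ∃ s ∈ F, ∃ m : ℕ, 1 ≤ m ∧ rc y c (fun P => (E P : ℚ)) = (m : ℝ) • s) ∧
      ∀ L : Place ℂ K → ℚ, Fin0 y L → A (cls y (cQ c) L) →
        ∃ ψ ∈ 𝒮, ∃ t : (Place ℂ K → ℤ) → ℚ, (∀ E, 0 ≤ t E) ∧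
          NumEquiv y L (fun P => ∑ E ∈ ℱ, t E * pullD ψ (fun P => (E P : ℚ)) P) := by
  classical
  have hD : ∀ s : F, ∃ D : Place ℂ K → ℤ, {P | IsPrimeDivisor y P ∧ D P ≠ 0}.Finite ∧ ∃ m : ℕ, 1 ≤ m ∧
      rc y c (fun P => (D P : ℚ)) = (m : ℝ) • (s : Fin ρ → ℝ) := fun s => exists_div_int hc (hF s s.2)
  choose D hDf m hm1 hDc using hD
  have hmp : ∀ s, (0 : ℝ) < m s := fun s => by exact_mod_cast hm1 s
  have hfinD : ∀ E ∈ Finset.univ.image D, Fin0 y (fun P => (E P : ℚ)) := by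
    intro E hE
    obtain ⟨s, -, rfl⟩ := Finset.mem_image.1 hE
    refine (hDf s).subset ?_
    rintro P ⟨h1, h2⟩
    exact ⟨h1, fun h3 => h2 (by show ((D s P : ℤ) : ℚ) = 0; rw [h3]; simp)⟩
  refine ⟨Finset.univ.image D, fun E hE => ?_, fun L hL h1 => ?_⟩
  · obtain ⟨s, -, rfl⟩ := Finset.mem_image.1 hE
    exact ⟨hDf s, s, s.2, m s, hm1 s, hDc s⟩
  · obtain ⟨T, ⟨ψ, hψ, hT⟩, t, ht, hLt⟩ := hall (cls y (cQ c) L) h1
    have hps := h𝒮 ψ hψ
    obtain ⟨u, hu⟩ : ∃ u : (Place ℂ K → ℤ) → ℚ, u = fun E => ∑ s : F, if D s = E then t s / m s else 0 :=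
      ⟨_, rfl⟩
    refine ⟨ψ, hψ, u, fun E => ?_, ?_⟩
    · rw [hu]
      refine Finset.sum_nonneg fun s _ => ?_
      split_ifs
      · exact div_nonneg (ht s) (Nat.cast_nonneg _)
      · exact le_rfl
    · obtain ⟨hFs, h3⟩ := rc_sum_pull (c := c) hy hps hT hfinD u
      rw [numEquiv_iff hy hc hL hFs, h3]
      show toR (cls y (cQ c) L) = _
      rw [hLt, ← Finset.sum_coe_sort F]
      have h5 : ∀ E ∈ Finset.univ.image D, (u E : ℝ) • T (rc y c (fun P => (E P : ℚ))) =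
          ∑ s ∈ Finset.univ.filter (fun s : F => D s = E), (t s : ℝ) • T s := by
        intro E hE
        rw [hu]
        push_cast
        rw [Finset.sum_smul, Finset.sum_filter]
        refine Finset.sum_congr rfl fun s _ => ?_
        by_cases h6 : D s = E
        · rw [if_pos h6, if_pos h6, ← h6, hDc s, map_smul, smul_smul]
          congr 1
          have := (hmp s).ne'
          push_cast
          field_simp
        · rw [if_neg h6, if_neg h6]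
          push_cast
          rw [zero_smul]
      rw [Finset.sum_congr rfl h5]
      exact (Finset.sum_fiberwise_of_maps_to (fun s hs => Finset.mem_image_of_mem D hs) _).symm

/-- **the boundary divisors, piece by piece** -/
theorem bdry_pieces (hy : NormalModel y) (hc : PicardBasis y c) (h𝒮 : ∀ φ ∈ 𝒮, PseudoAut φ y) {m : ℕ}
    {d : Fin m → ℕ} {J : ∀ i, (Fin (d i) → ℝ) →ₗ[ℝ] (Fin ρ → ℝ)} {Q : ∀ i, (Fin ρ → ℝ) →ₗ[ℝ] (Fin (d i) → ℝ)}
    (hJ : DirSum J Q) (hrat : ∃ M : ℕ, 0 < M ∧ ∀ i, ∀ x ∈ IntL ρ, (M : ℝ) • Q i x ∈ IntL (d i))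
    {Pi Ci : ∀ i, Set (Fin (d i) → ℝ)} (hcc : ∀ i, CCone (Ci i)) (hC : CCone (prd Q Ci))
    (hop : IsOpenCone (prd Q Pi)) (hcl : closure (prd Q Pi) = prd Q Ci) (hint' : interior (prd Q Ci) = prd Q Pi)
    (hPne : (prd Q Pi).Nonempty)
    {F₀ : Finset (Fin ρ → ℝ)} (hcov : ∀ x ∈ prd Q Pi, ∃ T ∈ pulls y c 𝒮, T x ∈ cone F₀)
    (hF₀ : ∀ a ∈ F₀, a ∈ IntL ρ ∧ a ∈ prd Q Ci) (hCE : CE y c = prd Q Ci) :
    ∃ ℱ : Finset (Place ℂ K → ℤ), (∀ E ∈ ℱ, {P | IsPrimeDivisor y P ∧ E P ≠ 0}.Finite ∧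
        ∃ i, ∃ v ∈ Ci i, rc y c (fun P => (E P : ℚ)) = J i v) ∧
      ∀ L : Place ℂ K → ℚ, Fin0 y L → rc y c L ∈ prd Q Ci → rc y c L ∉ prd Q Pi →
        ∃ ψ ∈ 𝒮, ∃ t : (Place ℂ K → ℤ) → ℚ, (∀ E, 0 ≤ t E) ∧
          NumEquiv y L (fun P => ∑ E ∈ ℱ, t E * pullD ψ (fun P => (E P : ℚ)) P) := by
  classical
  obtain ⟨F, hF, hall⟩ := bdry hy hc h𝒮 hC hop hcl hint' hPne hcov hF₀ hCE
  obtain ⟨M, hM, hMJ⟩ := hJ.lat
  obtain ⟨M', hM', hMQ⟩ := hrat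
  obtain ⟨g, hg⟩ : ∃ g : F × Fin m → (Fin ρ → ℝ), g = fun p => ((M * M' : ℕ) : ℝ) • J p.2 (Q p.2 p.1) := ⟨_, rfl⟩
  have hMM : (0 : ℝ) < ((M * M' : ℕ) : ℝ) := by push_cast; positivity
  have hgi : ∀ p, g p ∈ IntL ρ := by
    intro p
    have h2 : g p = (M : ℝ) • J p.2 ((M' : ℝ) • Q p.2 p.1) := by
      rw [hg, map_smul, smul_smul]
      push_cast
      rfl
    rw [h2]
    exact hMJ p.2 _ (hMQ p.2 _ (hF p.1 p.1.2).1)
  obtain ⟨ℱ, hℱ, h1⟩ := to_div (F := Finset.univ.image g) (A := fun q => toR q ∈ prd Q Ci ∧ toR q ∉ prd Q Pi) hy hc h𝒮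
    (fun s hs => by
      obtain ⟨p, -, rfl⟩ := Finset.mem_image.1 hs
      exact hgi p) (fun q hq => by
      obtain ⟨T, hT, t, ht, h2⟩ := hall q hq.1 hq.2
      refine ⟨T, hT, fun s => ∑ p ∈ Finset.univ.filter (fun p => g p = s), t p.1 / ((M * M' : ℕ) : ℚ), fun s => ?_, ?_⟩
      · exact Finset.sum_nonneg fun p _ => div_nonneg (ht _) (Nat.cast_nonneg _)
      · have h5 : ∀ s ∈ Finset.univ.image g,
            (((∑ p ∈ Finset.univ.filter (fun p => g p = s), t p.1 / ((M * M' : ℕ) : ℚ) : ℚ)) : ℝ) • T s =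
            ∑ p ∈ Finset.univ.filter (fun p => g p = s), (t p.1 : ℝ) • T (J p.2 (Q p.2 p.1)) := by
          intro s hs
          push_cast
          rw [Finset.sum_smul]
          refine Finset.sum_congr rfl fun p hp => ?_
          rw [← (Finset.mem_filter.1 hp).2, hg, map_smul, smul_smul]
          congr 1
          have h6 : ((M : ℝ) * M') ≠ 0 := by
            have := hMM.ne'
            push_cast at this
            exact this
          push_cast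
          field_simp
        rw [Finset.sum_congr rfl h5, Finset.sum_fiberwise_of_maps_to (fun p hp => Finset.mem_image_of_mem g hp),
          h2, ← Finset.univ_product_univ, Finset.sum_product, ← Finset.sum_coe_sort F]
        refine Finset.sum_congr rfl fun s _ => ?_
        have h7 : ∑ i, T (J i (Q i (s : Fin ρ → ℝ))) = T s := by
          rw [← map_sum, hJ.sum]
        rw [← h7, Finset.smul_sum])
  refine ⟨ℱ, fun E hE => ?_, fun L hL hLC hLP => h1 L hL ⟨hLC, hLP⟩⟩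
  obtain ⟨h2, s, hs, k, hk, h3⟩ := hℱ E hE
  obtain ⟨p, -, rfl⟩ := Finset.mem_image.1 hs
  refine ⟨h2, p.2, ((k : ℝ) * ((M * M' : ℕ) : ℝ)) • Q p.2 p.1, (hcc p.2).smul _ (by positivity) _
    ((hF p.1 p.1.2).2.1 p.2), ?_⟩
  rw [h3, hg, map_smul, smul_smul]

end

end Pool.Agent.L0h16.PZ
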