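import Pool.Agent.L0h16.PZ.Main
import Pool.Agent.L0h16.PZ.R1S
import Pool.Agent.L0h16.PZ.DUH
import Pool.Agent.L0h68.PZ.LIML
import Pool.Agent.L0h68.PZ.PRIG
import Pool.Agent.L0h34.PZ.PCOV
import Pool.Agent.L0h95.PZ.ISO
import Pool.Agent.L0h2.PZ.PTOP
import Pool.Agent.L0h85.PZ.LIMH

/-!
# PZ: the modules
-/

set_option autoImplicit false

namespace Pool.Agent.L0h16.PZ

theorem mods : Mods :=
  ⟨Pool.Agent.L0h68.PZ.t_LIML, Pool.Agent.L0h95.PZ.t_ISO, t_R1S, Pool.Agent.L0h85.PZ.t_LIMH, t_DUH,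
    Pool.Agent.L0h2.PZ.t_PTOP, Pool.Agent.L0h34.PZ.t_PCOV, Pool.Agent.L0h68.PZ.t_PRIG⟩

end Pool.Agent.L0h16.PZ
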