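import Pool.Agent.L0h16.PZ.Stm
import Pool.Agent.L0h18.HZ.Geo2

/-!
# PZ: the pieces
-/

set_option autoImplicit false

open FF Pool.Agent.W602.GT Pool.Agent.Y172 Pool.Agent.R887
open Pool.Agent.N110 Pool.Agent.N110.PA Pool.Agent.N110.NV Pool.Agent.N492.PA Pool.Agent.N110.CC
open Pool.Agent.Y167 (cone Sys)
open Pool.Agent.N165.KM (IntL)
open Pool.Agent.L0h18.CO (IsOpenCone pulls mem_pulls)
open Pool.Agent.L0h18.HZ (CCone Rigid Herm pd psd FinIdxU)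
open Pool.Agent.L0h18.LZ (bil Lorentz pcone ncone Pts IsoZ FinIdx bil_smul_left bil_smul_right
  bil_add_right)
open Topology Filter

namespace Pool.Agent.L0h16.PZ

/-- a Lorentz piece -/
theorem lorPiece (hLIML : S_LIML) (hISO : S_ISO) {d : ℕ} {B : Matrix (Fin d) (Fin d) ℤ} {h : Fin d → ℝ}
    (hB : Lorentz B h) (hd : 3 ≤ d) (hex : ∃ e ∈ Pts B h, bil B e e = 0)
    {𝒢 : Set ((Fin d → ℝ) ≃ₗ[ℝ] (Fin d → ℝ))} (hG : FinIdx B h 𝒢) : Piece 𝒢 (pcone B h) (ncone B h) := by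
  have hm := Pool.Agent.L0h18.LZ.mods
  obtain ⟨hsign, -, -, hself, hop, hcl, hint, hadd, -, -, -, -, -, -, -, -⟩ := hm.bas d B h hB
  have hsmul : ∀ t : ℝ, 0 ≤ t → ∀ x ∈ ncone B h, t • x ∈ ncone B h := by
    intro t ht x hx
    refine ⟨?_, ?_⟩
    · rw [bil_smul_left, bil_smul_right]
      exact mul_nonneg ht (mul_nonneg ht hx.1)
    · rw [bil_smul_left]
      exact mul_nonneg ht hx.2
  have hpt : ∀ x ∈ ncone B h, -x ∈ ncone B h → x = 0 := by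
    intro x hx hx'
    rw [← hcl] at hx hx'
    exact hop.pointed x hx hx'
  refine ⟨hop, hcl, hint, ⟨h, hB.pos, hB.pos⟩, ⟨?_, hadd, hsmul⟩, ?_, ?_, ?_, ?_⟩
  · rw [← hcl]
    exact isClosed_closure
  · obtain ⟨F, hF, hcov⟩ := Pool.Agent.L0h18.LZ.cov hm.bas hm.mink hm.vert hm.fin hB hG
    exact ⟨F, fun v hv => ⟨(hF v hv).1, (hF v hv).2.2⟩, hcov⟩
  · intro D hD hDp hDi hDne
    exact hm.rig hm.bas d B h hB hd 𝒢 hG hex D hD.closed hD.add hD.smul hDp hDi hDne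
  · intro D hD x hx hlim
    refine hISO d B h hB hd hex D hD fun e he hee => ?_
    obtain ⟨c, hc, h1⟩ := hLIML d B h hB hd 𝒢 hG e he hee
    have h2 : 0 < c * bil B x e := mul_pos hc (hsign x hx e he.2.2 he.2.1)
    have h3 := hD.smul (c * bil B x e)⁻¹ (inv_nonneg.2 h2.le) _ (hlim _ (h1 x))
    rwa [smul_smul, inv_mul_cancel₀ h2.ne', one_smul] at h3
  · intro z hz
    have h0 : ∀ e ∈ Pts B h, bil B e e = 0 → 0 ≤ bil B z e := by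
      intro e he hee
      obtain ⟨c, hc, h1⟩ := hLIML d B h hB hd 𝒢 hG e he hee
      by_contra hcon
      rw [not_le] at hcon
      have h2 : c * bil B z e < 0 := mul_neg_of_pos_of_neg hc hcon
      have h3 := hsmul (-(c * bil B z e))⁻¹ (inv_nonneg.2 (by linarith)) _ (hz _ (h1 z))
      rw [smul_smul] at h3
      have h4 : (-(c * bil B z e))⁻¹ * (c * bil B z e) = -1 := by
        rw [inv_neg, neg_mul, inv_mul_cancel₀ h2.ne]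
      rw [h4, neg_one_smul] at h3
      exact he.2.1 (hpt e he.2.2 h3)
    have hD : CCone {b : Fin d → ℝ | 0 ≤ bil B z b} := by
      refine ⟨?_, ?_, ?_⟩
      · have h1 : Continuous fun b : Fin d → ℝ => bil B z b := by
          unfold bil
          fun_prop
        exact isClosed_le continuous_const h1
      · intro x hx w hw
        show 0 ≤ bil B z (x + w)
        rw [bil_add_right]
        exact add_nonneg hx hw
      · intro t ht x hx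
        show 0 ≤ bil B z (t • x)
        rw [bil_smul_right]
        exact mul_nonneg ht hx
    exact hself z fun y hy => hISO d B h hB hd hex _ hD h0 hy

/-- a hermitian piece -/
theorem herPiece (hR1S : S_R1S) (hLIMH : S_LIMH) (hDUH : S_DUH) {A : Type} [Ring A] [Algebra ℝ A] {r d : ℕ}
    {S : Sys A r} {Φ : (Fin d → ℝ) →ₗ[ℝ] A} (hS : Herm S Φ)
    {𝒢 : Set ((Fin d → ℝ) ≃ₗ[ℝ] (Fin d → ℝ))} (hG : FinIdxU S Φ 𝒢) : Piece 𝒢 (pd S Φ) (psd S Φ) := by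
  obtain ⟨hop, hcl, hint, hne, hcc⟩ := Pool.Agent.L0h18.HZ.m_top A r d S Φ hS
  refine ⟨hop, hcl, hint, hne, hcc, Pool.Agent.L0h18.HZ.m_cov A r d S Φ hS 𝒢 hG,
    Pool.Agent.L0h18.HZ.rigid_of hS hG, ?_, ?_⟩
  · intro D hD x hx hlim
    exact hR1S A r d S Φ hS D hD x hx fun w hw hww x' hx' => hlim x' (hLIMH A r d S Φ hS 𝒢 hG w hw hww x x' hx')
  · intro z hz
    exact hDUH hR1S A r d S Φ hS z fun w hw hww x' hx' => hz x' (hLIMH A r d S Φ hS 𝒢 hG w hw hww z x' hx')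

/-- Lorentz lattices and hermitian elements -/
def IsArith {d : ℕ} (𝒢 : Set ((Fin d → ℝ) ≃ₗ[ℝ] (Fin d → ℝ))) (P C : Set (Fin d → ℝ)) : Prop :=
  (∃ (B : Matrix (Fin d) (Fin d) ℤ) (h : Fin d → ℝ), Lorentz B h ∧ 3 ≤ d ∧ (∃ e ∈ Pts B h, bil B e e = 0) ∧
    FinIdx B h 𝒢 ∧ P = pcone B h ∧ C = ncone B h) ∨
  (∃ (A : Type) (_ : Ring A) (_ : Algebra ℝ A) (r : ℕ) (S : Sys A r) (Φ : (Fin d → ℝ) →ₗ[ℝ] A), Herm S Φ ∧
    FinIdxU S Φ 𝒢 ∧ P = pd S Φ ∧ C = psd S Φ)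

/-- all modules -/
structure Mods : Prop where
  liml : S_LIML
  iso : S_ISO
  r1s : S_R1S
  limh : S_LIMH
  duh : S_DUH
  ptop : S_PTOP
  pcov : S_PCOV
  prig : S_PRIG

theorem piece_of (hm : Mods) {d : ℕ} {𝒢 : Set ((Fin d → ℝ) ≃ₗ[ℝ] (Fin d → ℝ))} {P C : Set (Fin d → ℝ)}
    (h : IsArith 𝒢 P C) : Piece 𝒢 P C := by
  rcases h with ⟨B, h, h1, h2, h3, h4, rfl, rfl⟩ | ⟨A, _, _, r, S, Φ, h1, h2, rfl, rfl⟩
  · exact lorPiece hm.liml hm.iso h1 h2 h3 h4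
  · exact herPiece hm.r1s hm.limh hm.duh h1 h2

/-- all properties of the direct sum -/
theorem sum_all (hm : Mods) {ρ m : ℕ} {d : Fin m → ℕ} {J : ∀ i, (Fin (d i) → ℝ) →ₗ[ℝ] (Fin ρ → ℝ)}
    {Q : ∀ i, (Fin ρ → ℝ) →ₗ[ℝ] (Fin (d i) → ℝ)} (hJ : DirSum J Q) {P C : ∀ i, Set (Fin (d i) → ℝ)}
    {𝒢 : Set ((Fin ρ → ℝ) ≃ₗ[ℝ] (Fin ρ → ℝ))} (h1 : 1 ∈ 𝒢) (h2 : ∀ S ∈ 𝒢, ∀ T ∈ 𝒢, S * T ∈ 𝒢)
    (h : ∀ i, IsArith (part J 𝒢 i) (P i) (C i)) :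
    (IsOpenCone (prd Q P) ∧ closure (prd Q P) = prd Q C ∧ interior (prd Q C) = prd Q P ∧ (prd Q P).Nonempty ∧
      CCone (prd Q C)) ∧ Rigid 𝒢 (prd Q P) (prd Q C) ∧
    ∃ F : Finset (Fin ρ → ℝ), (∀ v ∈ F, v ∈ IntL ρ ∧ v ∈ prd Q C) ∧ ∀ x ∈ prd Q P, ∃ T ∈ 𝒢, T x ∈ cone F := by
  have hp := fun i => piece_of hm (h i)
  refine ⟨hm.ptop ρ m d J Q hJ P C fun i => ⟨(hp i).opn, (hp i).cl, (hp i).int, (hp i).ne, (hp i).cc⟩,
    hm.prig ρ m d J Q hJ P C 𝒢 hp, hm.pcov ρ m d J Q hJ P C (fun i => ⟨(hp i).cc, ?_⟩) 𝒢 h1 h2 fun i => (hp i).cov⟩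
  rw [← (hp i).cl]
  exact (hp i).ne.closure

section

variable {K : Type} [Field K] [Algebra ℂ K] {N n ρ : ℕ} {y : Fin (N + 1) → K}
  {c : Place ℂ K → Fin ρ → ℤ} {𝒮 : Subgroup (K ≃ₐ[ℂ] K)}

theorem one_pulls : (1 : (Fin ρ → ℝ) ≃ₗ[ℝ] (Fin ρ → ℝ)) ∈ pulls y c 𝒮 := by
  refine ⟨1, 𝒮.one_mem, fun P Q hP h => ?_⟩
  have h1 : P = Q := by
    apply Place.ext
    funext g
    exact h g
  rw [h1]
  rfl

theorem mul_pulls (hy : NormalModel y) (hc : PicardBasis y c) (h𝒮 : ∀ φ ∈ 𝒮, PseudoAut φ y) :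
    ∀ S ∈ pulls y c 𝒮, ∀ T ∈ pulls y c 𝒮, S * T ∈ pulls y c 𝒮 := by
  obtain ⟨M, hM⟩ := exists_rep hy hc h𝒮
  intro S hS T hT
  obtain ⟨ψ, rfl⟩ := (mem_pulls hc hM).1 hS
  obtain ⟨φ, rfl⟩ := (mem_pulls hc hM).1 hT
  rw [← hM.TE_mul]
  exact (mem_pulls hc hM).2 ⟨_, rfl⟩

end

end Pool.Agent.L0h16.PZ
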