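import Pool.Agent.L0h18.HZ.Inst
import Pool.Agent.L0h18.LZ.Inst

/-!
# PZ: direct sums of arithmetic actions on symmetric cones

A piece is a space `ℝ ^ d` with an open cone `P`, its closure `C` and a group `𝒢`: a Lorentz lattice (`Pool.Agent.L0h18.LZ`)
or the hermitian elements of an order (`Pool.Agent.L0h18.HZ`). `ℝ ^ ρ` is the direct sum of `m` pieces.
-/

set_option autoImplicit false

open Pool.Agent.Y167 (cone Sys)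
open Pool.Agent.N165.KM (IntL)
open Pool.Agent.L0h18.CO (IsOpenCone)
open Pool.Agent.L0h18.HZ (CCone Rigid Herm pd psd FinIdxU)
open Pool.Agent.L0h18.LZ (bil Lorentz pcone ncone Pts IsoZ FinIdx)
open Topology Filter

namespace Pool.Agent.L0h16.PZ

/-- `w` is a limit of `t k • T k x` with `T k ∈ 𝒢`, `t k ≥ 0` and `t k → 0` -/
def IsLim {d : ℕ} (𝒢 : Set ((Fin d → ℝ) ≃ₗ[ℝ] (Fin d → ℝ))) (x w : Fin d → ℝ) : Prop :=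
  ∃ (T : ℕ → ((Fin d → ℝ) ≃ₗ[ℝ] (Fin d → ℝ))) (t : ℕ → ℝ), (∀ k, T k ∈ 𝒢) ∧ (∀ k, 0 ≤ t k) ∧
    Tendsto t atTop (𝓝 0) ∧ Tendsto (fun k => t k • T k x) atTop (𝓝 w)

/-- the properties of a piece -/
structure Piece {d : ℕ} (𝒢 : Set ((Fin d → ℝ) ≃ₗ[ℝ] (Fin d → ℝ))) (P C : Set (Fin d → ℝ)) : Prop where
  opn : IsOpenCone P
  cl : closure P = C
  int : interior C = P
  ne : P.Nonempty
  cc : CCone C
  cov : ∃ F : Finset (Fin d → ℝ), (∀ v ∈ F, v ∈ IntL d ∧ v ∈ C) ∧ ∀ x ∈ P, ∃ T ∈ 𝒢, T x ∈ cone F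
  rig : Rigid 𝒢 P C
  lim : ∀ D : Set (Fin d → ℝ), CCone D → ∀ x ∈ P, (∀ w, IsLim 𝒢 x w → w ∈ D) → C ⊆ D
  dual : ∀ z, (∀ w, IsLim 𝒢 z w → w ∈ C) → z ∈ C

/-- `ℝ ^ ρ` is the direct sum of the `ℝ ^ (d i)`: embeddings `J i`, projections `Q i`; the embeddings of the integral
vectors have bounded denominators -/
structure DirSum {ρ m : ℕ} {d : Fin m → ℕ} (J : ∀ i, (Fin (d i) → ℝ) →ₗ[ℝ] (Fin ρ → ℝ))
    (Q : ∀ i, (Fin ρ → ℝ) →ₗ[ℝ] (Fin (d i) → ℝ)) : Prop where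
  same : ∀ i x, Q i (J i x) = x
  other : ∀ i j, j ≠ i → ∀ x, Q j (J i x) = 0
  sum : ∀ x, ∑ i, J i (Q i x) = x
  lat : ∃ M : ℕ, 0 < M ∧ ∀ i, ∀ x ∈ IntL (d i), (M : ℝ) • J i x ∈ IntL ρ

/-- the automorphisms of the piece `i` induced by the elements of `𝒢` which are the identity on the other pieces -/
def part {ρ m : ℕ} {d : Fin m → ℕ} (J : ∀ i, (Fin (d i) → ℝ) →ₗ[ℝ] (Fin ρ → ℝ))
    (𝒢 : Set ((Fin ρ → ℝ) ≃ₗ[ℝ] (Fin ρ → ℝ))) (i : Fin m) : Set ((Fin (d i) → ℝ) ≃ₗ[ℝ] (Fin (d i) → ℝ)) :=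
  {T | ∃ U ∈ 𝒢, (∀ x, U (J i x) = J i (T x)) ∧ ∀ j, j ≠ i → ∀ x, U (J j x) = J j x}

/-- the product cone -/
def prd {ρ m : ℕ} {d : Fin m → ℕ} (Q : ∀ i, (Fin ρ → ℝ) →ₗ[ℝ] (Fin (d i) → ℝ)) (P : ∀ i, Set (Fin (d i) → ℝ)) :
    Set (Fin ρ → ℝ) := {x | ∀ i, Q i x ∈ P i}

/-! ### the modules -/

/-- LIML: `Pool.Agent.L0h97.LZ.limit` in the form of a sequence (copy its proof, 90 lines) -/
def S_LIML : Prop := ∀ (d : ℕ) (B : Matrix (Fin d) (Fin d) ℤ) (h : Fin d → ℝ), Lorentz B h → 3 ≤ d →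
  ∀ 𝒢 : Set ((Fin d → ℝ) ≃ₗ[ℝ] (Fin d → ℝ)), FinIdx B h 𝒢 → ∀ e ∈ Pts B h, bil B e e = 0 →
  ∃ c : ℝ, 0 < c ∧ ∀ x, IsLim 𝒢 x ((c * bil B x e) • e)

/-- ISO: the isotropic integral vectors generate the closed cone (apply `S_RIG`, that is `mods.rig`, to the closure of the
convex cone which they generate; if `e` is isotropic and `x` in `IntL`, `bil x e ≠ 0` and `bil x x ≠ 0` then
`2 * bil x e • x - bil x x • e` is another isotropic vector, and the sum of two which are not proportional is in the open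
cone) -/
def S_ISO : Prop := ∀ (d : ℕ) (B : Matrix (Fin d) (Fin d) ℤ) (h : Fin d → ℝ), Lorentz B h → 3 ≤ d →
  (∃ e ∈ Pts B h, bil B e e = 0) → ∀ D : Set (Fin d → ℝ), CCone D → (∀ e ∈ Pts B h, bil B e e = 0 → e ∈ D) →
  ncone B h ⊆ D

/-- R1S: `Pool.Agent.L0h61.HZ.rig1` with the weaker hypothesis for one element `a₀` (copy its proof; the nil-stability
is used only once there, for `a0`) -/
def S_R1S : Prop := ∀ (A : Type) [Ring A] [Algebra ℝ A] (r ρ : ℕ) (S : Sys A r) (Φ : (Fin ρ → ℝ) →ₗ[ℝ] A), Herm S Φ →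
  ∀ D : Set (Fin ρ → ℝ), CCone D → ∀ a₀ ∈ pd S Φ,
  (∀ w ∈ S.R, w * w = 0 → ∀ x', Φ x' = S.st w * Φ a₀ * w → x' ∈ D) → psd S Φ ⊆ D

/-- LIMH: `Pool.Agent.L0h78.HZ.t_NIL` in the form of a sequence (copy its proof, 100 lines) -/
def S_LIMH : Prop := ∀ (A : Type) [Ring A] [Algebra ℝ A] (r ρ : ℕ) (S : Sys A r) (Φ : (Fin ρ → ℝ) →ₗ[ℝ] A), Herm S Φ →
  ∀ 𝒢 : Set ((Fin ρ → ℝ) ≃ₗ[ℝ] (Fin ρ → ℝ)), FinIdxU S Φ 𝒢 → ∀ w ∈ S.R, w * w = 0 →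
  ∀ x x', Φ x' = S.st w * Φ x * w → IsLim 𝒢 x x'

/-- DUH: the dual statement (from R1S with `a₀ = 1`, applied to `D = {b | 0 ≤ tr (Φ b * Φ z)}`; see
`Pool.Agent.L0h88.HZ.rig2` for the computations with the trace) -/
def S_DUH : Prop := S_R1S → ∀ (A : Type) [Ring A] [Algebra ℝ A] (r ρ : ℕ) (S : Sys A r) (Φ : (Fin ρ → ℝ) →ₗ[ℝ] A),
  Herm S Φ → ∀ z, (∀ w ∈ S.R, w * w = 0 → ∀ x', Φ x' = S.st w * Φ z * w → x' ∈ psd S Φ) → z ∈ psd S Φ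

/-- PTOP: topology of the product cone -/
def S_PTOP : Prop := ∀ (ρ m : ℕ) (d : Fin m → ℕ) (J : ∀ i, (Fin (d i) → ℝ) →ₗ[ℝ] (Fin ρ → ℝ))
  (Q : ∀ i, (Fin ρ → ℝ) →ₗ[ℝ] (Fin (d i) → ℝ)), DirSum J Q → ∀ P C : ∀ i, Set (Fin (d i) → ℝ),
  (∀ i, IsOpenCone (P i) ∧ closure (P i) = C i ∧ interior (C i) = P i ∧ (P i).Nonempty ∧ CCone (C i)) →
  IsOpenCone (prd Q P) ∧ closure (prd Q P) = prd Q C ∧ interior (prd Q C) = prd Q P ∧ (prd Q P).Nonempty ∧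
    CCone (prd Q C)

/-- PCOV: covering of the product cone (for each `i` there is `U i ∈ 𝒢` with `Q i (U i x) = T i (Q i x)` in the cone
generated by `F i` and `Q j (U i x) = Q j x`; multiply the `U i`; `F` is the set of the `M • J i v`, `v ∈ F i`) -/
def S_PCOV : Prop := ∀ (ρ m : ℕ) (d : Fin m → ℕ) (J : ∀ i, (Fin (d i) → ℝ) →ₗ[ℝ] (Fin ρ → ℝ))
  (Q : ∀ i, (Fin ρ → ℝ) →ₗ[ℝ] (Fin (d i) → ℝ)), DirSum J Q → ∀ P C : ∀ i, Set (Fin (d i) → ℝ),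
  (∀ i, CCone (C i) ∧ (C i).Nonempty) →
  ∀ 𝒢 : Set ((Fin ρ → ℝ) ≃ₗ[ℝ] (Fin ρ → ℝ)), 1 ∈ 𝒢 → (∀ S ∈ 𝒢, ∀ T ∈ 𝒢, S * T ∈ 𝒢) →
  (∀ i, ∃ F : Finset (Fin (d i) → ℝ), (∀ v ∈ F, v ∈ IntL (d i) ∧ v ∈ C i) ∧
    ∀ x ∈ P i, ∃ T ∈ part J 𝒢 i, T x ∈ cone F) →
  ∃ F : Finset (Fin ρ → ℝ), (∀ v ∈ F, v ∈ IntL ρ ∧ v ∈ prd Q C) ∧ ∀ x ∈ prd Q P, ∃ T ∈ 𝒢, T x ∈ cone F

/-- PRIG: rigidity of the product (let `D` be as in `Rigid`; `D i = {v | J i v ∈ D}`; if `T k → ` as in `IsLim` for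
`Q i x`, `x ∈ D`, and `U k ∈ 𝒢` induces `T k` then `t k • U k x → J i w`, so `w ∈ D i`; by `lim` `C i ⊆ D i`; by `rig`
`D i = C i`; by `dual` `Q i z ∈ C i` for all `z ∈ D`) -/
def S_PRIG : Prop := ∀ (ρ m : ℕ) (d : Fin m → ℕ) (J : ∀ i, (Fin (d i) → ℝ) →ₗ[ℝ] (Fin ρ → ℝ))
  (Q : ∀ i, (Fin ρ → ℝ) →ₗ[ℝ] (Fin (d i) → ℝ)), DirSum J Q → ∀ P C : ∀ i, Set (Fin (d i) → ℝ),
  ∀ 𝒢 : Set ((Fin ρ → ℝ) ≃ₗ[ℝ] (Fin ρ → ℝ)), (∀ i, Piece (part J 𝒢 i) (P i) (C i)) → Rigid 𝒢 (prd Q P) (prd Q C)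

end Pool.Agent.L0h16.PZ
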